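import Pool.Agent.Lib.MP_5d3ebc_al.Cell

namespace Pool.Agent.Results.MP_5d3ebc_al.NotSLP

open Pool.Agent.Lib.MP_5d3ebc_al

universe u

/-- There is a balanced simplicial 3-sphere (`d = 4`) whose colored algebra fails the strong
Lefschetz property over every field. -/
theorem result :
    ∃ (V : Type) (_ : Fintype V) (_ : DecidableEq V) (Δ : AbstractSimplicialComplex V)
      (c : V → Fin 4),
      IsBalanced Δ c ∧ IsSimplicialSphere 4 Δ ∧
        ∀ (K : Type u) [Field K], ¬ StrongLefschetz (gradedPart K Δ c) :=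
  ⟨Fin 48, inferInstance, inferInstance, Cell24.Δ₀, Cell24.c, Cell24.isBalanced,
    Cell24.isSphere, fun K _ => Cell24.not_SLP K⟩

end Pool.Agent.Results.MP_5d3ebc_al.NotSLP
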