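import Pool.Agent.Lib.MP_5d3ebc_al.Cell

namespace Pool.Agent.Results.MP_5d3ebc_al.NotWLP

open Pool.Agent.Lib.MP_5d3ebc_al

universe u

/-- There is a balanced simplicial 4-sphere (`d = 5`) whose colored algebra fails the weak
Lefschetz property over every field. -/
theorem result :
    ∃ (V : Type) (_ : Fintype V) (_ : DecidableEq V) (Δ : AbstractSimplicialComplex V)
      (c : V → Fin 5),
      IsBalanced Δ c ∧ IsSimplicialSphere 5 Δ ∧
        ∀ (K : Type u) [Field K], ¬ WeakLefschetz (gradedPart K Δ c) :=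
  ⟨Fin 48 ⊕ Bool, inferInstance, inferInstance, Cell24.Δ₁, susC Cell24.c, Cell24.isBalanced₁,
    Cell24.isSphere₁, fun K _ => Cell24.not_WLP K⟩

end Pool.Agent.Results.MP_5d3ebc_al.NotWLP
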